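import Mathlib

/-!
# The E-sequence with twos exactly at the perfect squares `≥ 4` is `Ω`-divergent

If an odd `x` had this E-sequence, then `Z m = x_{m^2} + 1` would satisfy
`4 ^ (m + 1) Z (m + 1) = 3 ^ (2 m + 1) Z m + 2 * 4 ^ m`, i.e.
`(12 x + 5) + 3 ∑_{m ≤ M} θ m = 6 Z M θ M`, `θ m = 2 ^ (m (m + 1)) / 3 ^ (m ^ 2)`,
so `- (12 x + 5) / 3` is the `2`-adic value of the theta series `∑ θ m`.
The explicit Padé approximants of the theta series (Gaussian binomial coefficients with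
`q = 4 / 9`) give, for every `n ≥ 1`, an integer divisible by `2 ^ (8 n ^ 2 + 2 n)`, nonzero, of
absolute value at most `3 ^ (5 n ^ 2) 2 ^ n (12 x + 5 + 12 n)`. As `2 ^ 8 > 3 ^ 5`, this is
impossible for large `n`.
-/

namespace Pool.Agent.Results.MP_106823_nt.SquaresDivergent

open Finset

/-- The trajectory of `x`: `x_0 = x` and `x_{n+1} = (3 x_n + 1) / 2 ^ a`, where `2 ^ a` is the
exact power of `2` dividing `3 x_n + 1`. -/
def traj (x : ℕ) : ℕ → ℕ
  | 0 => x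
  | n + 1 => (3 * traj x n + 1) / 2 ^ padicValNat 2 (3 * traj x n + 1)

/-- The E-sequence of `x`: `a_n` is the exponent of `2` in `3 x_{n-1} + 1`, for `n ≥ 1`. -/
def eSeq (x n : ℕ) : ℕ := padicValNat 2 (3 * traj x (n - 1) + 1)

/-- The sequence `q_n`, which is `2` at the perfect squares `≥ 4` and `1` elsewhere. -/
def q (n : ℕ) : ℕ := if IsSquare n ∧ 4 ≤ n then 2 else 1

/-! ### Gaussian binomial coefficients with `q = 4 / 9` -/

/-- `9 ^ (k (n - k))` times the Gaussian binomial coefficient with parameter `4 / 9`. -/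
def C : ℕ → ℕ → ℕ
  | _, 0 => 1
  | 0, _ + 1 => 0
  | n + 1, k + 1 => 9 ^ (k + 1) * C n (k + 1) + 4 ^ (n - k) * C n k

theorem C_eq_zero {n k : ℕ} (h : n < k) : C n k = 0 := by
  induction n generalizing k with
  | zero => obtain ⟨j, rfl⟩ : ∃ j, k = j + 1 := ⟨k - 1, by omega⟩; rfl
  | succ n ih =>
    obtain ⟨j, rfl⟩ : ∃ j, k = j + 1 := ⟨k - 1, by omega⟩
    rw [C, ih (by omega), ih (by omega)]; simp

theorem C_le (n k : ℕ) : C n k ≤ n.choose k * 9 ^ (k * (n - k)) := by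
  induction n generalizing k with
  | zero => cases k <;> simp [C]
  | succ n ih =>
    cases k with
    | zero => simp [C]
    | succ k =>
      rcases lt_trichotomy k n with h | h | h
      · obtain ⟨d, rfl⟩ : ∃ d, n = k + 1 + d := ⟨n - (k + 1), by omega⟩
        have h1 := ih (k + 1)
        have h2 := ih k
        have e1 : k + 1 + d - (k + 1) = d := by omega
        have e2 : k + 1 + d - k = d + 1 := by omega
        have e3 : k + 1 + d + 1 - (k + 1) = d + 1 := by omega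
        rw [e1] at h1
        rw [e2] at h2
        rw [C, e2, e3, Nat.choose_succ_succ]
        calc 9 ^ (k + 1) * C (k + 1 + d) (k + 1) + 4 ^ (d + 1) * C (k + 1 + d) k
            ≤ 9 ^ (k + 1) * ((k + 1 + d).choose (k + 1) * 9 ^ ((k + 1) * d))
              + 9 ^ (d + 1) * ((k + 1 + d).choose k * 9 ^ (k * (d + 1))) := by
                gcongr
                norm_num
          _ = ((k + 1 + d).choose k + (k + 1 + d).choose (k + 1)) * 9 ^ ((k + 1) * (d + 1)) := by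
                ring
      · subst h
        rw [C, C_eq_zero (by omega : k < k + 1)]
        have := ih k
        simp only [Nat.sub_self, mul_zero, pow_zero, mul_one, Nat.choose_self] at this
        simpa using this
      · rw [C_eq_zero (by omega)]; exact Nat.zero_le _

/-- the Gaussian binomial coefficient with parameter `4 / 9` -/
def G (n k : ℕ) : ℚ := C n k / 9 ^ (k * (n - k))

theorem G_zero (n : ℕ) : G n 0 = 1 := by cases n <;> simp [G, C]

theorem G_of_lt {n k : ℕ} (h : n < k) : G n k = 0 := by simp [G, C_eq_zero h]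

theorem G_succ {n k : ℕ} (h : k ≤ n) :
    G (n + 1) (k + 1) = G n (k + 1) + (4 / 9) ^ (n - k) * G n k := by
  rcases h.lt_or_eq with h | h
  · obtain ⟨d, rfl⟩ : ∃ d, n = k + 1 + d := ⟨n - (k + 1), by omega⟩
    have e1 : k + 1 + d - (k + 1) = d := by omega
    have e2 : k + 1 + d - k = d + 1 := by omega
    have e3 : k + 1 + d + 1 - (k + 1) = d + 1 := by omega
    simp only [G, C, e1, e2, e3]
    push_cast
    rw [div_pow, show (k + 1) * (d + 1) = (k + 1) + (k + 1) * d by ring, pow_add,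
      show k * (d + 1) = k * d + k by ring]
    have h9 : ∀ m : ℕ, (9 : ℚ) ^ m ≠ 0 := fun m => pow_ne_zero m (by norm_num)
    field_simp
    ring
  · subst h
    simp [G, C, C_eq_zero (by omega : k < k + 1)]

/-- the finite `q`-binomial theorem -/
theorem q_binomial (n : ℕ) (t : ℚ) :
    ∑ k ∈ range (n + 1), G n k * (4 / 9) ^ (k.choose 2) * t ^ k
      = ∏ i ∈ range n, (1 + (4 / 9) ^ i * t) := by
  induction n with
  | zero => simp [G_zero]
  | succ n ih =>
    rw [prod_range_succ, ← ih, sum_range_succ']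
    have h1 : ∀ k ∈ range (n + 1), G (n + 1) (k + 1) * (4 / 9 : ℚ) ^ ((k + 1).choose 2) * t ^ (k + 1)
        = G n (k + 1) * (4 / 9) ^ ((k + 1).choose 2) * t ^ (k + 1)
          + (4 / 9) ^ n * t * (G n k * (4 / 9) ^ (k.choose 2) * t ^ k) := by
      intro k hk
      rw [mem_range] at hk
      rw [G_succ (by omega)]
      have e1 : (k + 1).choose 2 = k + k.choose 2 := by
        rw [Nat.choose_succ_succ' k 1, Nat.choose_one_right]
      have e2 : (4 / 9 : ℚ) ^ n = (4 / 9) ^ (n - k) * (4 / 9) ^ k := by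
        rw [← pow_add]; congr 1; omega
      rw [e1, e2, pow_add, pow_succ]
      ring
    rw [sum_congr rfl h1, sum_add_distrib, ← mul_sum]
    have h2 : ∑ k ∈ range (n + 1), G n (k + 1) * (4 / 9 : ℚ) ^ ((k + 1).choose 2) * t ^ (k + 1)
        + G (n + 1) 0 * (4 / 9) ^ (Nat.choose 0 2) * t ^ 0
        = ∑ k ∈ range (n + 1), G n k * (4 / 9) ^ (k.choose 2) * t ^ k := by
      rw [G_zero, ← G_zero n,
        ← sum_range_succ' (fun k => G n k * (4 / 9 : ℚ) ^ (k.choose 2) * t ^ k) (n + 1),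
        sum_range_succ _ (n + 1), G_of_lt (by omega : n < n + 1)]
      ring
    linear_combination h2

/-! ### The theta series -/

/-- the terms of the theta series -/
def th (m : ℕ) : ℚ := 2 ^ (m * (m + 1)) / 3 ^ (m ^ 2)

theorem th_succ (m : ℕ) : th (m + 1) = th m * (4 ^ (m + 1) / 3 ^ (2 * m + 1)) := by
  unfold th
  rw [show (m + 1) * (m + 1 + 1) = m * (m + 1) + 2 * (m + 1) by ring,
    show (m + 1) ^ 2 = m ^ 2 + (2 * m + 1) by ring, pow_add, pow_add,
    show (2 : ℚ) ^ (2 * (m + 1)) = 4 ^ (m + 1) by rw [pow_mul]; norm_num]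
  rw [mul_div_mul_comm]

theorem th_shift {k j : ℕ} (h : k ≤ j) :
    th (j - k) = th j * ((4 / 9) ^ (k.choose 2) * ((9 / 4) ^ j / 3) ^ k) := by
  induction k with
  | zero => simp
  | succ k ih =>
    have h1 := ih (by omega)
    obtain ⟨d, rfl⟩ : ∃ d, j = d + (k + 1) := ⟨j - (k + 1), by omega⟩
    have e1 : d + (k + 1) - (k + 1) = d := by omega
    have e2 : d + (k + 1) - k = d + 1 := by omega
    rw [e2, th_succ] at h1
    rw [e1]
    have e3 : (k + 1).choose 2 = k + k.choose 2 := by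
      rw [Nat.choose_succ_succ' k 1, Nat.choose_one_right]
    rw [e3, pow_add, pow_succ]
    have h2 : th d = (th (d + (k + 1)) * ((4 / 9) ^ (k.choose 2)
        * ((9 / 4) ^ (d + (k + 1)) / 3) ^ k)) * (3 ^ (2 * d + 1) / 4 ^ (d + 1)) := by
      rw [← h1]
      field_simp
    rw [h2]
    have h3 : (3 : ℚ) ^ (2 * d + 1) / 4 ^ (d + 1)
        = (4 / 9) ^ k * ((9 / 4) ^ (d + (k + 1)) / 3) := by
      have e4 : (9 / 4 : ℚ) ^ (d + (k + 1)) = (9 / 4) ^ (d + 1) * (9 / 4) ^ k := by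
        rw [← pow_add]; congr 1; ring
      have e5 : (4 / 9 : ℚ) ^ k * (9 / 4) ^ k = 1 := by
        rw [← mul_pow]; norm_num
      have e6 : (3 : ℚ) ^ (2 * d + 1) = 9 ^ d * 3 := by rw [pow_succ, pow_mul]; norm_num
      rw [e4, e6]
      calc (9 : ℚ) ^ d * 3 / 4 ^ (d + 1) = (9 / 4) ^ (d + 1) / 3 * 1 := by
            rw [div_pow, pow_succ 9 d]; field_simp; norm_num
        _ = (9 / 4) ^ (d + 1) / 3 * ((4 / 9) ^ k * (9 / 4) ^ k) := by rw [e5]
        _ = _ := by ring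
    rw [h3]
    ring

/-- the coefficients of the denominator of the Padé approximant -/
def al (n k : ℕ) : ℚ := (-1) ^ k * G n k * (3 * (4 / 9) ^ (2 * n)) ^ k

theorem conv_eq {n j : ℕ} (h : n ≤ j) :
    ∑ k ∈ range (n + 1), al n k * th (j - k)
      = th j * ∏ i ∈ range n, (1 - (4 / 9) ^ (i + 2 * n) * (9 / 4) ^ j) := by
  have h1 : ∀ k ∈ range (n + 1), al n k * th (j - k)
      = th j * (G n k * (4 / 9) ^ (k.choose 2) * (-((4 / 9) ^ (2 * n) * (9 / 4) ^ j)) ^ k) := by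
    intro k hk
    rw [mem_range] at hk
    rw [th_shift (by omega : k ≤ j), al, neg_pow ((4 / 9 : ℚ) ^ (2 * n) * (9 / 4) ^ j) k]
    have h2 : (3 * (4 / 9 : ℚ) ^ (2 * n)) ^ k * ((9 / 4) ^ j / 3) ^ k
        = ((4 / 9 : ℚ) ^ (2 * n) * (9 / 4) ^ j) ^ k := by
      rw [← mul_pow]; congr 1; ring
    rw [← h2]
    ring
  rw [sum_congr rfl h1, ← mul_sum, q_binomial]
  congr 1
  refine prod_congr rfl fun i _ => ?_
  rw [pow_add]; ring

theorem conv_zero {n j : ℕ} (h1 : 2 * n ≤ j) (h2 : j < 3 * n) :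
    ∑ k ∈ range (n + 1), al n k * th (j - k) = 0 := by
  rw [conv_eq (by omega), prod_eq_zero (i := j - 2 * n) (by rw [mem_range]; omega), mul_zero]
  rw [show j - 2 * n + 2 * n = j by omega, ← mul_pow]
  norm_num

theorem conv_top (n : ℕ) :
    ∑ k ∈ range (n + 1), al n k * th (3 * n - k)
      = 2 ^ (8 * n ^ 2 + 2 * n) / 3 ^ ((3 * n) ^ 2) * ∏ l ∈ range n, ((4 : ℚ) ^ (l + 1) - 9 ^ (l + 1)) := by
  rw [conv_eq (by omega)]
  have h1 : ∏ i ∈ range n, (1 - (4 / 9 : ℚ) ^ (i + 2 * n) * (9 / 4) ^ (3 * n))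
      = ∏ l ∈ range n, (1 - (9 / 4 : ℚ) ^ (l + 1)) := by
    rw [← prod_range_reflect]
    refine prod_congr rfl fun i hi => ?_
    rw [mem_range] at hi
    have e1 : 3 * n = (n - 1 - i + 2 * n) + (i + 1) := by omega
    have e2 : (4 / 9 : ℚ) ^ (n - 1 - i + 2 * n) * (9 / 4) ^ (n - 1 - i + 2 * n) = 1 := by
      rw [← mul_pow]; norm_num
    calc 1 - (4 / 9 : ℚ) ^ (n - 1 - i + 2 * n) * (9 / 4) ^ (3 * n)
        = 1 - (4 / 9 : ℚ) ^ (n - 1 - i + 2 * n) * (9 / 4) ^ ((n - 1 - i + 2 * n) + (i + 1)) := by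
          rw [← e1]
      _ = 1 - ((4 / 9 : ℚ) ^ (n - 1 - i + 2 * n) * (9 / 4) ^ (n - 1 - i + 2 * n))
            * (9 / 4) ^ (i + 1) := by rw [pow_add (9 / 4 : ℚ) (n - 1 - i + 2 * n) (i + 1)]; ring
      _ = 1 - (9 / 4 : ℚ) ^ (i + 1) := by rw [e2, one_mul]
  have h2 : ∀ m : ℕ, (2 : ℚ) ^ (m * (m + 1)) * ∏ l ∈ range m, (1 - (9 / 4 : ℚ) ^ (l + 1))
      = ∏ l ∈ range m, ((4 : ℚ) ^ (l + 1) - 9 ^ (l + 1)) := by
    intro m
    induction m with
    | zero => simp
    | succ m ih =>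
      rw [prod_range_succ, prod_range_succ, ← ih,
        show (m + 1) * (m + 1 + 1) = m * (m + 1) + 2 * (m + 1) by ring, pow_add,
        show (2 : ℚ) ^ (2 * (m + 1)) = 4 ^ (m + 1) by rw [pow_mul]; norm_num, div_pow]
      field_simp
  rw [h1, th, ← h2 n,
    show 3 * n * (3 * n + 1) = (8 * n ^ 2 + 2 * n) + n * (n + 1) by ring, pow_add]
  ring

/-- splitting the product of `∑ al` and the finite sum of the theta series -/
theorem split (n : ℕ) :
    (∑ k ∈ range (n + 1), al n k) * (∑ m ∈ range (3 * n + 1), th m)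
      = ∑ k ∈ range (n + 1), al n k * ∑ m ∈ range (2 * n - k), th m
        + ∑ k ∈ range (n + 1), al n k * th (3 * n - k)
        + ∑ k ∈ range (n + 1), al n k * ∑ i ∈ range k, th (3 * n - k + 1 + i) := by
  have h1 : ∀ k ∈ range (n + 1), al n k * (∑ m ∈ range (3 * n + 1), th m)
      = al n k * ∑ m ∈ range (2 * n - k), th m
        + ∑ i ∈ range (n + 1), al n k * th (2 * n + i - k)
        + al n k * ∑ i ∈ range k, th (3 * n - k + 1 + i) := by
    intro k hk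
    rw [mem_range] at hk
    rw [show 3 * n + 1 = (2 * n - k) + (n + 1) + k by omega, sum_range_add, sum_range_add,
      mul_add, mul_add]
    congr 1
    · congr 1
      rw [mul_sum]
      refine sum_congr rfl fun i _ => ?_
      congr 2; omega
    · congr 1
      refine sum_congr rfl fun i _ => ?_
      congr 1; omega
  rw [sum_mul, sum_congr rfl h1, sum_add_distrib, sum_add_distrib]
  congr 2
  rw [sum_comm, sum_range_succ]
  have h2 : ∑ i ∈ range n, ∑ k ∈ range (n + 1), al n k * th (2 * n + i - k) = 0 := by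
    refine sum_eq_zero fun i hi => ?_
    rw [mem_range] at hi
    exact conv_zero (by omega) (by omega)
  rw [h2, zero_add]
  refine sum_congr rfl fun k _ => ?_
  congr 2; omega

/-! ### Divisibility by powers of two in the ring of fractions with denominators powers of three -/

/-- `y` is `2 ^ k` times a fraction whose denominator is a power of `3`. -/
def Dv (k : ℕ) (y : ℚ) : Prop := ∃ (z : ℤ) (l : ℕ), y * 3 ^ l = 2 ^ k * z

theorem Dv.add {k : ℕ} {y y' : ℚ} (h : Dv k y) (h' : Dv k y') : Dv k (y + y') := by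
  obtain ⟨z, l, hz⟩ := h
  obtain ⟨z', l', hz'⟩ := h'
  refine ⟨z * 3 ^ l' + z' * 3 ^ l, l + l', ?_⟩
  push_cast
  rw [pow_add]
  linear_combination (3 : ℚ) ^ l' * hz + (3 : ℚ) ^ l * hz'

theorem Dv.mul {a b : ℕ} {y y' : ℚ} (h : Dv a y) (h' : Dv b y') : Dv (a + b) (y * y') := by
  obtain ⟨z, l, hz⟩ := h
  obtain ⟨z', l', hz'⟩ := h'
  refine ⟨z * z', l + l', ?_⟩
  push_cast
  rw [pow_add, pow_add]
  calc y * y' * (3 ^ l * 3 ^ l') = (y * 3 ^ l) * (y' * 3 ^ l') := by ring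
    _ = _ := by rw [hz, hz']; ring

theorem Dv.mono {a b : ℕ} {y : ℚ} (h : Dv b y) (hab : a ≤ b) : Dv a y := by
  obtain ⟨z, l, hz⟩ := h
  obtain ⟨d, rfl⟩ : ∃ d, b = a + d := ⟨b - a, by omega⟩
  refine ⟨2 ^ d * z, l, ?_⟩
  push_cast
  rw [hz, pow_add]; ring

theorem Dv.int (z : ℤ) : Dv 0 (z : ℚ) := ⟨z, 0, by simp⟩

theorem Dv.nat (z : ℕ) : Dv 0 (z : ℚ) := ⟨z, 0, by simp⟩

theorem Dv.sum {ι : Type*} {k : ℕ} (s : Finset ι) (f : ι → ℚ) (h : ∀ i ∈ s, Dv k (f i)) :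
    Dv k (∑ i ∈ s, f i) := by
  classical
  induction s using Finset.induction_on with
  | empty => exact ⟨0, 0, by simp⟩
  | insert a s ha ih =>
    rw [sum_insert ha]
    exact (h a (mem_insert_self _ _)).add (ih fun i hi => h i (mem_insert_of_mem hi))

theorem Dv.pow {a : ℕ} {y : ℚ} (h : Dv a y) (k : ℕ) : Dv (a * k) (y ^ k) := by
  induction k with
  | zero => simpa using Dv.nat 1
  | succ k ih => rw [pow_succ, mul_add, mul_one]; exact ih.mul h

theorem Dv_th (m : ℕ) : Dv (m * (m + 1)) (th m) := by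
  refine ⟨1, m ^ 2, ?_⟩
  unfold th
  push_cast
  field_simp

theorem Dv_G (n k : ℕ) : Dv 0 (G n k) := by
  refine ⟨C n k, 2 * (k * (n - k)), ?_⟩
  unfold G
  rw [show (3 : ℚ) ^ (2 * (k * (n - k))) = 9 ^ (k * (n - k)) by rw [pow_mul]; norm_num]
  push_cast
  field_simp

theorem Dv_al (n k : ℕ) : Dv (4 * n * k) (al n k) := by
  unfold al
  have h1 : Dv 2 (4 / 9 : ℚ) := ⟨1, 2, by norm_num⟩
  have h2 : Dv (4 * n) (3 * (4 / 9 : ℚ) ^ (2 * n)) := by
    have h3 := (Dv.nat 3).mul (h1.pow (2 * n))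
    have e : 0 + 2 * (2 * n) = 4 * n := by ring
    rw [e] at h3
    simpa using h3
  have h3 : Dv 0 ((-1 : ℚ) ^ k) := by
    have := (Dv.int (-1)).pow k
    simpa using this
  have h4 := (h3.mul (Dv_G n k)).mul (h2.pow k)
  simpa using h4

theorem Dv_high (n : ℕ) :
    Dv (8 * n ^ 2 + 2 * n + 1)
      (∑ k ∈ range (n + 1), al n k * ∑ i ∈ range k, th (3 * n - k + 1 + i)) := by
  refine Dv.sum _ _ fun k hk => ?_
  rw [mem_range] at hk
  have h1 : Dv ((3 * n - k + 1) * (3 * n - k + 1 + 1)) (∑ i ∈ range k, th (3 * n - k + 1 + i)) := by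
    refine Dv.sum _ _ fun i _ => (Dv_th _).mono ?_
    exact Nat.mul_le_mul (by omega) (by omega)
  refine ((Dv_al n k).mul h1).mono ?_
  obtain ⟨d, rfl⟩ : ∃ d, n = k + d := ⟨n - k, by omega⟩
  have e : 3 * (k + d) - k + 1 = 2 * k + 3 * d + 1 := by omega
  rw [e]
  nlinarith

/-! ### Bounds -/

theorem th_nonneg (m : ℕ) : 0 ≤ th m := by unfold th; positivity

theorem th_le (m : ℕ) : th m ≤ 2 := by
  unfold th
  rw [div_le_iff₀ (by positivity)]
  rcases Nat.lt_or_ge m 2 with h | h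
  · interval_cases m <;> norm_num
  · have h1 : (2 : ℚ) ^ (m * (m + 1)) ≤ 3 ^ (m ^ 2) := by
      have e : (2 : ℚ) ^ (m * (m + 1)) = (2 ^ (m + 1)) ^ m := by rw [← pow_mul]; ring_nf
      have e' : (3 : ℚ) ^ (m ^ 2) = (3 ^ m) ^ m := by rw [← pow_mul]; ring_nf
      rw [e, e']
      refine pow_le_pow_left₀ (by positivity) ?_ m
      induction m, h using Nat.le_induction with
      | base => norm_num
      | succ m _ ih =>
        rw [pow_succ 2 (m + 1), pow_succ 3 m]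
        have : (0 : ℚ) ≤ 3 ^ m := by positivity
        nlinarith [ih (by rw [← pow_mul]; ring_nf) (by rw [← pow_mul]; ring_nf)]
    have : (0 : ℚ) ≤ 3 ^ (m ^ 2) := by positivity
    linarith

theorem abs_al_le {n k : ℕ} (hn : 1 ≤ n) : |al n k| ≤ n.choose k := by
  have hG0 : 0 ≤ G n k := by unfold G; positivity
  have hG : G n k ≤ n.choose k := by
    unfold G
    rw [div_le_iff₀ (by positivity)]
    exact_mod_cast C_le n k
  have h1 : 3 * (4 / 9 : ℚ) ^ (2 * n) ≤ 1 := by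
    have h2 : (4 / 9 : ℚ) ^ (2 * n) ≤ (4 / 9) ^ 2 :=
      pow_le_pow_of_le_one (by norm_num) (by norm_num) (by omega)
    linarith [h2, (by norm_num : 3 * (4 / 9 : ℚ) ^ 2 ≤ 1)]
  have h2 : (3 * (4 / 9 : ℚ) ^ (2 * n)) ^ k ≤ 1 := pow_le_one₀ (by positivity) h1
  have h3 : 0 ≤ (3 * (4 / 9 : ℚ) ^ (2 * n)) ^ k := by positivity
  unfold al
  rw [abs_mul, abs_mul, abs_pow, abs_neg, abs_one, one_pow, one_mul, abs_of_nonneg hG0,
    abs_of_nonneg h3]
  calc G n k * (3 * (4 / 9 : ℚ) ^ (2 * n)) ^ k ≤ G n k * 1 := by gcongr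
    _ ≤ n.choose k := by rw [mul_one]; exact hG

theorem abs_sum_al_le {n : ℕ} (hn : 1 ≤ n) : |∑ k ∈ range (n + 1), al n k| ≤ 2 ^ n := by
  calc |∑ k ∈ range (n + 1), al n k| ≤ ∑ k ∈ range (n + 1), |al n k| := abs_sum_le_sum_abs _ _
    _ ≤ ∑ k ∈ range (n + 1), (n.choose k : ℚ) := sum_le_sum fun k _ => abs_al_le hn
    _ = 2 ^ n := by exact_mod_cast Nat.sum_range_choose n

theorem abs_low_le {n : ℕ} (hn : 1 ≤ n) :
    |∑ k ∈ range (n + 1), al n k * ∑ m ∈ range (2 * n - k), th m| ≤ 2 ^ n * (4 * n) := by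
  calc |∑ k ∈ range (n + 1), al n k * ∑ m ∈ range (2 * n - k), th m|
      ≤ ∑ k ∈ range (n + 1), |al n k * ∑ m ∈ range (2 * n - k), th m| := abs_sum_le_sum_abs _ _
    _ ≤ ∑ k ∈ range (n + 1), (n.choose k : ℚ) * (4 * n) := by
        refine sum_le_sum fun k _ => ?_
        rw [abs_mul]
        have h1 : |∑ m ∈ range (2 * n - k), th m| ≤ 4 * n := by
          rw [abs_of_nonneg (sum_nonneg fun m _ => th_nonneg m)]
          calc ∑ m ∈ range (2 * n - k), th m ≤ ∑ m ∈ range (2 * n - k), (2 : ℚ) :=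
                sum_le_sum fun m _ => th_le m
            _ = ((2 * n - k : ℕ) : ℚ) * 2 := by rw [sum_const, card_range, nsmul_eq_mul]
            _ ≤ ((2 * n : ℕ) : ℚ) * 2 := by
                gcongr
                exact Nat.sub_le _ _
            _ = 4 * n := by push_cast; ring
        exact mul_le_mul (abs_al_le hn) h1 (abs_nonneg _) (Nat.cast_nonneg _)
    _ = 2 ^ n * (4 * n) := by
        rw [← sum_mul]
        congr 1
        exact_mod_cast Nat.sum_range_choose n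

/-! ### Integrality -/

theorem int_term {n k m : ℕ} (hn : 1 ≤ n) (hk : k ≤ n) (hm : m + k < 2 * n) :
    ∃ z : ℤ, (3 : ℚ) ^ (5 * n ^ 2) * (al n k * th m) = z := by
  obtain ⟨r, hr⟩ : ∃ r, 5 * n ^ 2 = 2 * (k * (n - k)) + (4 * n) * k + m ^ 2 + r := by
    refine ⟨5 * n ^ 2 - (2 * (k * (n - k)) + (4 * n) * k + m ^ 2), ?_⟩
    obtain ⟨d, rfl⟩ : ∃ d, n = k + d := ⟨n - k, by omega⟩
    have e : k + d - k = d := by omega
    rw [e]
    have : 2 * (k * d) + 4 * (k + d) * k + m ^ 2 ≤ 5 * (k + d) ^ 2 := by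
      have h1 : m ≤ k + 2 * d := by omega
      have h2 : m ^ 2 ≤ (k + 2 * d) ^ 2 := Nat.pow_le_pow_left h1 2
      nlinarith
    omega
  refine ⟨(-1) ^ k * C n k * 3 ^ k * 4 ^ (2 * n * k) * 2 ^ (m * (m + 1)) * 3 ^ r, ?_⟩
  have e9 : (9 : ℚ) ^ (k * (n - k)) = 3 ^ (2 * (k * (n - k))) := by
    rw [pow_mul (3 : ℚ) 2]; norm_num
  have e10 : (9 : ℚ) ^ (2 * n * k) = 3 ^ ((4 * n) * k) := by
    rw [show 4 * n * k = 2 * (2 * n * k) by ring, pow_mul (3 : ℚ) 2]; norm_num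
  unfold al G th
  rw [hr, mul_pow 3, ← pow_mul, div_pow, e9, e10, pow_add, pow_add, pow_add]
  push_cast
  field_simp

theorem int_al {n k : ℕ} (hn : 1 ≤ n) (hk : k ≤ n) :
    ∃ z : ℤ, (3 : ℚ) ^ (5 * n ^ 2) * al n k = z := by
  rcases Nat.lt_or_ge k (2 * n) with h | h
  · have := int_term (m := 0) hn hk (by omega)
    simpa [th] using this
  · omega

/-! ### The recursion along the squares -/

theorem step {x n : ℕ} (h : eSeq x (n + 1) = q (n + 1)) :
    2 ^ q (n + 1) * traj x (n + 1) = 3 * traj x n + 1 := by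
  have h1 : traj x (n + 1) = (3 * traj x n + 1) / 2 ^ padicValNat 2 (3 * traj x n + 1) := rfl
  have h2 : padicValNat 2 (3 * traj x n + 1) = q (n + 1) := by rw [← h]; rfl
  rw [h1, h2]
  apply Nat.mul_div_cancel'
  rw [← h2]
  exact pow_padicValNat_dvd

theorem q_between {m i : ℕ} (hi : i < 2 * m) : q (m ^ 2 + i + 1) = 1 := by
  unfold q
  rw [if_neg]
  rintro ⟨⟨r, hr⟩, _⟩
  have h1 : m < r := by
    by_contra hcon
    push Not at hcon
    have := Nat.mul_le_mul hcon hcon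
    nlinarith
  have h2 : (m + 1) * (m + 1) ≤ r * r := Nat.mul_le_mul h1 h1
  nlinarith

theorem q_square {m : ℕ} (hm : 1 ≤ m) : q ((m + 1) ^ 2) = 2 := by
  unfold q
  rw [if_pos]
  refine ⟨⟨m + 1, by ring⟩, ?_⟩
  nlinarith

theorem run {x : ℕ} (h : ∀ n, 1 ≤ n → eSeq x n = q n) (m i : ℕ) (hi : i ≤ 2 * m) :
    2 ^ i * (traj x (m ^ 2 + i) + 1) = 3 ^ i * (traj x (m ^ 2) + 1) := by
  induction i with
  | zero => simp
  | succ i ih =>
    have h1 := step (h (m ^ 2 + i + 1) (by omega))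
    rw [q_between (by omega : i < 2 * m), pow_one] at h1
    have h2 := ih (by omega)
    rw [← add_assoc]
    calc 2 ^ (i + 1) * (traj x (m ^ 2 + i + 1) + 1)
        = 2 ^ i * (2 * traj x (m ^ 2 + i + 1) + 2) := by ring
      _ = 3 * (2 ^ i * (traj x (m ^ 2 + i) + 1)) := by rw [h1]; ring
      _ = 3 ^ (i + 1) * (traj x (m ^ 2) + 1) := by rw [h2]; ring

theorem Z_succ {x : ℕ} (h : ∀ n, 1 ≤ n → eSeq x n = q n) {m : ℕ} (hm : 1 ≤ m) :
    4 ^ (m + 1) * (traj x ((m + 1) ^ 2) + 1)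
      = 3 ^ (2 * m + 1) * (traj x (m ^ 2) + 1) + 2 * 4 ^ m := by
  have h1 := run h m (2 * m) le_rfl
  have e : (m + 1) ^ 2 = m ^ 2 + 2 * m + 1 := by ring
  have h2 := step (h (m ^ 2 + 2 * m + 1) (by omega))
  rw [← e, q_square hm] at h2
  have h4 : (2 : ℕ) ^ (2 * m) = 4 ^ m := by rw [pow_mul]; norm_num
  rw [h4] at h1
  calc 4 ^ (m + 1) * (traj x ((m + 1) ^ 2) + 1)
      = 4 ^ m * (2 ^ 2 * traj x ((m + 1) ^ 2) + 4) := by ring
    _ = 3 * (4 ^ m * (traj x (m ^ 2 + 2 * m) + 1)) + 2 * 4 ^ m := by rw [h2]; ring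
    _ = 3 ^ (2 * m + 1) * (traj x (m ^ 2) + 1) + 2 * 4 ^ m := by rw [h1]; ring

/-- `(12 x + 5) + 3 ∑_{i ≤ m} θ i = 6 Z m θ m` -/
theorem theta_eq {x : ℕ} (h : ∀ n, 1 ≤ n → eSeq x n = q n) {m : ℕ} (hm : 1 ≤ m) :
    (12 * x + 5 : ℚ) + 3 * ∑ i ∈ range (m + 1), th i
      = 6 * (traj x (m ^ 2) + 1 : ℕ) * th m := by
  induction m, hm using Nat.le_induction with
  | base =>
    have h1 := step (h (0 + 1) (by omega))
    have h2 : q (0 + 1) = 1 := by decide
    rw [h2] at h1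
    have h3 : (2 : ℚ) * traj x 1 = 3 * x + 1 := by exact_mod_cast h1
    have e0 : th 0 = 1 := by norm_num [th]
    have e1 : th 1 = 4 / 3 := by norm_num [th]
    rw [sum_range_succ, sum_range_succ, sum_range_zero, e0, e1]
    push_cast
    linarith
  | succ m hm ih =>
    rw [sum_range_succ]
    have h1 := Z_succ h hm
    have h2 : (4 : ℚ) ^ (m + 1) * ((traj x ((m + 1) ^ 2) + 1 : ℕ) : ℚ)
        = 3 ^ (2 * m + 1) * ((traj x (m ^ 2) + 1 : ℕ) : ℚ) + 2 * 4 ^ m := by exact_mod_cast h1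
    have h3 := th_succ m
    have h4 : 6 * ((traj x ((m + 1) ^ 2) + 1 : ℕ) : ℚ) * th (m + 1)
        = 6 * ((traj x (m ^ 2) + 1 : ℕ) : ℚ) * th m + 3 * th (m + 1) := by
      have h5 : (3 : ℚ) ^ (2 * m + 1) ≠ 0 := pow_ne_zero _ (by norm_num)
      rw [h3]
      calc 6 * ((traj x ((m + 1) ^ 2) + 1 : ℕ) : ℚ) * (th m * (4 ^ (m + 1) / 3 ^ (2 * m + 1)))
          = 6 * th m / 3 ^ (2 * m + 1) * (4 ^ (m + 1) * ((traj x ((m + 1) ^ 2) + 1 : ℕ) : ℚ)) := by
            ring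
        _ = 6 * th m / 3 ^ (2 * m + 1)
            * (3 ^ (2 * m + 1) * ((traj x (m ^ 2) + 1 : ℕ) : ℚ) + 2 * 4 ^ m) := by rw [h2]
        _ = _ := by rw [pow_succ 4 m]; field_simp; ring
    rw [h4]
    linarith

/-! ### The contradiction -/

theorem key {x n : ℕ} (hn : 1 ≤ n) (h : ∀ n, 1 ≤ n → eSeq x n = q n) :
    2 ^ n ≤ (12 * x + 5 + 12 * n : ℕ) := by
  set X : ℚ := 12 * x + 5 with hX
  set A := ∑ k ∈ range (n + 1), al n k with hA
  set B := ∑ k ∈ range (n + 1), al n k * ∑ m ∈ range (2 * n - k), th m with hB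
  set H := ∑ k ∈ range (n + 1), al n k * ∑ i ∈ range k, th (3 * n - k + 1 + i) with hH
  set V := 8 * n ^ 2 + 2 * n with hV
  set o : ℤ := ∏ l ∈ range n, ((4 : ℤ) ^ (l + 1) - 9 ^ (l + 1)) with ho
  have hsplit := split n
  rw [← hA, ← hB, ← hH, conv_top, ← hV] at hsplit
  have hoq : ∏ l ∈ range n, ((4 : ℚ) ^ (l + 1) - 9 ^ (l + 1)) = (o : ℚ) := by
    rw [ho]; push_cast; rfl
  rw [hoq] at hsplit
  have hth := theta_eq h (by omega : 1 ≤ 3 * n)
  rw [← hX] at hth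
  set Z : ℕ := traj x ((3 * n) ^ 2) + 1 with hZ
  set mainq : ℚ := 2 ^ V / 3 ^ ((3 * n) ^ 2) * o with hmain
  have hodd : Odd o := by
    rw [ho]
    refine prod_induction _ Odd (fun a b ha hb => ha.mul hb) odd_one ?_
    intro l _
    have h1 : Even ((4 : ℤ) ^ (l + 1)) := (by decide : Even (4 : ℤ)).pow_of_ne_zero (by omega)
    have h2 : Odd ((9 : ℤ) ^ (l + 1)) := (by decide : Odd (9 : ℤ)).pow
    exact h1.sub_odd h2
  -- the linear form
  have hy : A * X + 3 * B = A * (6 * Z * th (3 * n)) + (-1) * (3 * mainq) + (-1) * (3 * H) := by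
    rw [← hth]
    linear_combination (-3) * hsplit
  have hDA : Dv 0 A := Dv.sum _ _ fun k _ => (Dv_al n k).mono (Nat.zero_le _)
  have hD1 : Dv (V + 1) (A * (6 * Z * th (3 * n))) := by
    have h6 : Dv 1 (6 : ℚ) := ⟨3, 0, by norm_num⟩
    refine (hDA.mul ((h6.mul (Dv.nat Z)).mul (Dv_th (3 * n)))).mono ?_
    rw [hV]; nlinarith
  have hD3 : Dv (V + 1) ((-1) * (3 * H)) := by
    have h1 := ((Dv.int (-1)).mul ((Dv.nat 3).mul (Dv_high n)))
    rw [← hH, ← hV] at h1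
    simpa using h1
  have hDmain : Dv V ((-1) * (3 * mainq)) := by
    refine ⟨-3 * o, (3 * n) ^ 2, ?_⟩
    rw [hmain]; push_cast; field_simp
  have hDy : Dv V (A * X + 3 * B) := by
    rw [hy]
    exact ((hD1.mono (by omega)).add hDmain).add (hD3.mono (by omega))
  have hy0 : A * X + 3 * B ≠ 0 := by
    intro h0
    have h1 : Dv (V + 1) (3 * mainq) := by
      have e : 3 * mainq = A * (6 * Z * th (3 * n)) + (-1) * (3 * H) := by
        rw [h0] at hy; linarith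
      rw [e]; exact hD1.add hD3
    obtain ⟨z, l, hz⟩ := h1
    have h2 : (3 : ℚ) * o * 3 ^ l = 2 * z * 3 ^ ((3 * n) ^ 2) := by
      have h3 : (2 : ℚ) ^ V ≠ 0 := by positivity
      have h4 : (3 : ℚ) ^ ((3 * n) ^ 2) ≠ 0 := by positivity
      apply mul_left_cancel₀ h3
      rw [hmain, pow_succ] at hz
      field_simp at hz
      linear_combination hz
    have h3 : (3 : ℤ) * o * 3 ^ l = 2 * (z * 3 ^ ((3 * n) ^ 2)) := by
      have : ((3 * o * 3 ^ l : ℤ) : ℚ) = ((2 * (z * 3 ^ ((3 * n) ^ 2)) : ℤ) : ℚ) := by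
        push_cast; linarith
      exact_mod_cast this
    have h4 : Odd ((3 : ℤ) * o * 3 ^ l) :=
      ((by decide : Odd (3 : ℤ)).mul hodd).mul ((by decide : Odd (3 : ℤ)).pow)
    rw [h3] at h4
    exact (Int.not_odd_iff_even.2 (even_two_mul _)) h4
  -- integrality
  have hint : ∃ I : ℤ, (3 : ℚ) ^ (5 * n ^ 2) * (A * X + 3 * B) = I := by
    have h1 : ∃ z : ℤ, (3 : ℚ) ^ (5 * n ^ 2) * A = z := by
      have h2 : ∀ k ∈ range (n + 1), ∃ z : ℤ, (3 : ℚ) ^ (5 * n ^ 2) * al n k = z :=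
        fun k hk => int_al hn (by rw [mem_range] at hk; omega)
      choose! f hf using h2
      refine ⟨∑ k ∈ range (n + 1), f k, ?_⟩
      rw [hA, mul_sum]; push_cast
      exact sum_congr rfl hf
    have h3 : ∃ z : ℤ, (3 : ℚ) ^ (5 * n ^ 2) * B = z := by
      have h4 : ∀ k ∈ range (n + 1), ∃ z : ℤ,
          (3 : ℚ) ^ (5 * n ^ 2) * (al n k * ∑ m ∈ range (2 * n - k), th m) = z := by
        intro k hk
        rw [mem_range] at hk
        have h5 : ∀ m ∈ range (2 * n - k), ∃ z : ℤ, (3 : ℚ) ^ (5 * n ^ 2) * (al n k * th m) = z :=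
          fun m hm => int_term hn (by omega) (by rw [mem_range] at hm; omega)
        choose! g hg using h5
        refine ⟨∑ m ∈ range (2 * n - k), g m, ?_⟩
        rw [mul_sum, mul_sum]; push_cast
        exact sum_congr rfl hg
      choose! f hf using h4
      refine ⟨∑ k ∈ range (n + 1), f k, ?_⟩
      rw [hB, mul_sum]; push_cast
      exact sum_congr rfl hf
    obtain ⟨a, ha⟩ := h1
    obtain ⟨b, hb⟩ := h3
    refine ⟨a * (12 * x + 5) + 3 * b, ?_⟩
    push_cast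
    rw [← ha, ← hb, hX]; ring
  obtain ⟨I, hI⟩ := hint
  have hI0 : I ≠ 0 := by
    rintro rfl
    rw [Int.cast_zero] at hI
    exact hy0 ((mul_eq_zero.1 hI).resolve_left (by positivity))
  have hIdvd : (2 : ℤ) ^ V ∣ I := by
    obtain ⟨z, l, hz⟩ := hDy
    have h1 : (I : ℚ) * 3 ^ l = 2 ^ V * (3 ^ (5 * n ^ 2) * z) := by
      rw [← hI]; linear_combination (3 : ℚ) ^ (5 * n ^ 2) * hz
    have h2 : I * 3 ^ l = 2 ^ V * (3 ^ (5 * n ^ 2) * z) := by exact_mod_cast h1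
    have h3 : IsCoprime ((2 : ℤ) ^ V) (3 ^ l) := by
      apply IsCoprime.pow
      exact Int.isCoprime_iff_gcd_eq_one.2 (by norm_num)
    exact h3.dvd_of_dvd_mul_right ⟨_, h2⟩
  have hlow : (2 : ℤ) ^ V ≤ |I| := Int.le_of_dvd (abs_pos.2 hI0) ((dvd_abs _ _).2 hIdvd)
  -- upper bound
  have hup : |(I : ℚ)| ≤ 3 ^ (5 * n ^ 2) * (2 ^ n * (12 * x + 5 + 12 * n)) := by
    rw [← hI, abs_mul, abs_of_nonneg (by positivity : (0 : ℚ) ≤ 3 ^ (5 * n ^ 2))]
    gcongr
    have hX0 : 0 ≤ X := by positivity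
    calc |A * X + 3 * B| ≤ |A * X| + |3 * B| := abs_add_le _ _
      _ = |A| * X + 3 * |B| := by
          rw [abs_mul, abs_mul, abs_of_nonneg hX0, abs_of_nonneg (by norm_num : (0 : ℚ) ≤ 3)]
      _ ≤ 2 ^ n * X + 3 * (2 ^ n * (4 * n)) := by
          have h1 := abs_sum_al_le hn
          have h2 := abs_low_le hn
          rw [← hA] at h1
          rw [← hB] at h2
          gcongr
      _ = 2 ^ n * (12 * x + 5 + 12 * n) := by rw [hX]; ring
  have hfin : (2 : ℚ) ^ V ≤ 3 ^ (5 * n ^ 2) * (2 ^ n * (12 * x + 5 + 12 * n)) := by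
    refine le_trans ?_ hup
    exact_mod_cast hlow
  have hpow : (3 : ℚ) ^ (5 * n ^ 2) ≤ 2 ^ (8 * n ^ 2) := by
    rw [pow_mul, pow_mul]
    exact pow_le_pow_left₀ (by norm_num) (by norm_num) _
  have hfin2 : (2 : ℚ) ^ n ≤ 12 * x + 5 + 12 * n := by
    have h1 : (2 : ℚ) ^ V = 2 ^ (8 * n ^ 2) * (2 ^ n * 2 ^ n) := by
      rw [hV, ← pow_add, ← pow_add]; congr 1; ring
    rw [h1] at hfin
    have h2 : (2 : ℚ) ^ (8 * n ^ 2) * (2 ^ n * 2 ^ n)
        ≤ 2 ^ (8 * n ^ 2) * (2 ^ n * (12 * x + 5 + 12 * n)) := by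
      refine hfin.trans ?_
      gcongr
    have h3 : (0 : ℚ) < 2 ^ (8 * n ^ 2) := by positivity
    have h4 : (0 : ℚ) < 2 ^ n := by positivity
    exact le_of_mul_le_mul_left (le_of_mul_le_mul_left h2 h3) h4
  exact_mod_cast hfin2

/-- No odd positive integer has the E-sequence `q`: the sequence `q` is `Ω`-divergent. -/
theorem result : ¬ ∃ x : ℕ, Odd x ∧ ∀ n : ℕ, 1 ≤ n → eSeq x n = q n := by
  rintro ⟨x, -, h⟩
  have h1 := key (x := x) (n := 12 * x + 20) (by omega) h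
  have h2 : ∀ m : ℕ, 20 ≤ m → 24 * m < 2 ^ m := by
    intro m hm
    induction m, hm using Nat.le_induction with
    | base => norm_num
    | succ m hm ih => rw [pow_succ]; omega
  have h3 := h2 (12 * x + 20) (by omega)
  omega

end Pool.Agent.Results.MP_106823_nt.SquaresDivergent
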